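import Mathlib

open MeasureTheory Polynomial Filter Topology
open scoped BigOperators ComplexConjugate ENNReal

noncomputable section

namespace Pool.Agent.Results.MP_58ffb3_an.BergmanMeasureNotRoot

/-- `e` is an `L²(ν)`-orthonormal basis of the space of polynomials of degree at most `k`
(`k + 1` orthonormal polynomials of degree at most `k`). -/
def IsOrthoBasis (ν : Measure ℂ) (k : ℕ) (e : Fin (k + 1) → ℂ[X]) : Prop :=
  (∀ i, (e i).natDegree ≤ k) ∧
    ∀ i j, ∫ z, (e i).eval z * conj ((e j).eval z) ∂ν = if i = j then 1 else 0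

/-- The Bergman function of an orthonormal basis. -/
def bergman {k : ℕ} (e : Fin (k + 1) → ℂ[X]) (z : ℂ) : ℝ := ∑ i, ‖(e i).eval z‖ ^ 2

lemma bergman_nonneg {k : ℕ} (e : Fin (k + 1) → ℂ[X]) (z : ℂ) : 0 ≤ bergman e z :=
  Finset.sum_nonneg fun _ _ => by positivity

lemma continuous_bergman {k : ℕ} (e : Fin (k + 1) → ℂ[X]) : Continuous (bergman e) := by
  unfold bergman
  exact continuous_finsetSum _ fun i _ => ((e i).continuous.norm).pow 2

/-- finite measures carried by the unit circle -/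
def Good (ν : Measure ℂ) : Prop := IsFiniteMeasure ν ∧ ∀ᵐ z ∂ν, ‖z‖ = 1

lemma Good.integrable {ν : Measure ℂ} (hν : Good ν) {E : Type*} [NormedAddCommGroup E]
    {f : ℂ → E} (hf : Continuous f) [SecondCountableTopology E] : Integrable f ν := by
  have := hν.1
  obtain ⟨C, hC⟩ := (isCompact_sphere (0 : ℂ) 1).exists_bound_of_continuousOn hf.continuousOn
  refine Integrable.of_bound hf.aestronglyMeasurable C ?_
  filter_upwards [hν.2] with z hz
  exact hC z (by simp [hz])

/-- the inner product -/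
def ip (ν : Measure ℂ) (p q : ℂ[X]) : ℂ := ∫ z, p.eval z * conj (q.eval z) ∂ν

lemma cont_ip (p q : ℂ[X]) : Continuous fun z : ℂ => p.eval z * conj (q.eval z) :=
  p.continuous.mul (Complex.continuous_conj.comp q.continuous)

lemma ip_self (ν : Measure ℂ) (p : ℂ[X]) :
    ip ν p p = ((∫ z, ‖p.eval z‖ ^ 2 ∂ν : ℝ) : ℂ) := by
  unfold ip
  rw [← integral_complex_ofReal]
  congr 1
  ext z
  rw [Complex.mul_conj, Complex.normSq_eq_norm_sq]

lemma ip_conj (ν : Measure ℂ) (p q : ℂ[X]) : conj (ip ν p q) = ip ν q p := by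
  unfold ip
  rw [← integral_conj]
  congr 1
  ext z
  simp [mul_comm]

lemma ip_add_left {ν : Measure ℂ} (hν : Good ν) (p q r : ℂ[X]) :
    ip ν (p + q) r = ip ν p r + ip ν q r := by
  unfold ip
  rw [← integral_add (hν.integrable (cont_ip p r)) (hν.integrable (cont_ip q r))]
  congr 1
  ext z
  simp [add_mul]

lemma ip_smul_left {ν : Measure ℂ} (c : ℂ) (p r : ℂ[X]) :
    ip ν (c • p) r = c * ip ν p r := by
  unfold ip
  rw [← integral_const_mul]
  congr 1
  ext z
  simp [mul_assoc]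

lemma ip_smul_right {ν : Measure ℂ} (c : ℂ) (p r : ℂ[X]) :
    ip ν p (c • r) = conj c * ip ν p r := by
  rw [← ip_conj, ip_smul_left, map_mul, ip_conj]

lemma ip_add_right {ν : Measure ℂ} (hν : Good ν) (p q r : ℂ[X]) :
    ip ν p (q + r) = ip ν p q + ip ν p r := by
  rw [← ip_conj, ip_add_left hν, map_add, ip_conj, ip_conj]

lemma ip_sum_left {ν : Measure ℂ} (hν : Good ν) {ι : Type*} (s : Finset ι) (f : ι → ℂ[X])
    (r : ℂ[X]) : ip ν (∑ i ∈ s, f i) r = ∑ i ∈ s, ip ν (f i) r := by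
  classical
  induction s using Finset.induction_on with
  | empty => simp [ip]
  | insert a s ha ih => rw [Finset.sum_insert ha, Finset.sum_insert ha, ip_add_left hν, ih]

lemma ip_sum_right {ν : Measure ℂ} (hν : Good ν) {ι : Type*} (s : Finset ι) (f : ι → ℂ[X])
    (r : ℂ[X]) : ip ν r (∑ i ∈ s, f i) = ∑ i ∈ s, ip ν r (f i) := by
  rw [← ip_conj, ip_sum_left hν, map_sum]
  exact Finset.sum_congr rfl fun i _ => ip_conj _ _ _

variable {ν : Measure ℂ} {k : ℕ} {e : Fin (k + 1) → ℂ[X]}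

lemma ip_expand (hν : Good ν) (he : IsOrthoBasis ν k e) (c d : Fin (k + 1) → ℂ) :
    ip ν (∑ i, c i • e i) (∑ i, d i • e i) = ∑ i, c i * conj (d i) := by
  rw [ip_sum_left hν]
  refine Finset.sum_congr rfl fun i _ => ?_
  rw [ip_sum_right hν, Finset.sum_eq_single i]
  · rw [ip_smul_left, ip_smul_right]
    have := he.2 i i
    rw [if_pos rfl] at this
    change c i * (conj (d i) * ip ν (e i) (e i)) = _
    unfold ip
    rw [this, mul_one]
  · intro j _ hj
    rw [ip_smul_left, ip_smul_right]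
    have := he.2 i j
    rw [if_neg (Ne.symm hj)] at this
    unfold ip
    rw [this]
    simp
  · simp

lemma norm_expand (hν : Good ν) (he : IsOrthoBasis ν k e) (c : Fin (k + 1) → ℂ) :
    ∫ z, ‖(∑ i, c i • e i).eval z‖ ^ 2 ∂ν = ∑ i, ‖c i‖ ^ 2 := by
  have h1 := ip_expand hν he c c
  rw [ip_self] at h1
  have h2 : (∑ i, c i * conj (c i) : ℂ) = ((∑ i, ‖c i‖ ^ 2 : ℝ) : ℂ) := by
    push_cast
    refine Finset.sum_congr rfl fun i _ => ?_
    rw [Complex.mul_conj, Complex.normSq_eq_norm_sq]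
    push_cast
    rfl
  rw [h2] at h1
  exact_mod_cast h1

lemma exists_expand (hν : Good ν) (he : IsOrthoBasis ν k e) (p : ℂ[X])
    (hp : p.natDegree ≤ k) : ∃ c : Fin (k + 1) → ℂ, p = ∑ i, c i • e i := by
  have hmem : ∀ q : ℂ[X], q.natDegree ≤ k → q ∈ degreeLT ℂ (k + 1) := by
    intro q hq
    rw [mem_degreeLT]
    exact lt_of_le_of_lt degree_le_natDegree (by exact_mod_cast Nat.lt_succ_of_le hq)
  let b : Fin (k + 1) → degreeLT ℂ (k + 1) := fun i => ⟨e i, hmem _ (he.1 i)⟩
  have hli : LinearIndependent ℂ b := by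
    rw [Fintype.linearIndependent_iff]
    intro g hg i
    have hg' : ∑ j, g j • e j = 0 := by
      have := congrArg (Subtype.val) hg
      simpa [b] using this
    have h := norm_expand hν he g
    rw [hg'] at h
    simp only [eval_zero, norm_zero, ne_eq, OfNat.ofNat_ne_zero, not_false_eq_true, zero_pow,
      integral_zero] at h
    have h3 := (Finset.sum_eq_zero_iff_of_nonneg (fun i _ => by positivity)).1 h.symm i
      (Finset.mem_univ i)
    simpa using h3
  have : FiniteDimensional ℂ (degreeLT ℂ (k + 1)) :=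
    (degreeLTEquiv ℂ (k + 1)).symm.finiteDimensional
  have hfr : Fintype.card (Fin (k + 1)) = Module.finrank ℂ (degreeLT ℂ (k + 1)) := by
    rw [(degreeLTEquiv ℂ (k + 1)).finrank_eq]
    simp
  have hspan := hli.span_eq_top_of_card_eq_finrank' hfr
  have hx : (⟨p, hmem p hp⟩ : degreeLT ℂ (k + 1)) ∈ Submodule.span ℂ (Set.range b) := by
    rw [hspan]; trivial
  rw [Submodule.mem_span_range_iff_exists_fun] at hx
  obtain ⟨c, hc⟩ := hx
  refine ⟨c, ?_⟩
  have := congrArg (Subtype.val) hc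
  simpa [b] using this.symm

/-- Christoffel: `|p(z)|² ≤ ‖p‖² B(z)`. -/
lemma norm_sq_le (hν : Good ν) (he : IsOrthoBasis ν k e) (p : ℂ[X])
    (hp : p.natDegree ≤ k) (z : ℂ) :
    ‖p.eval z‖ ^ 2 ≤ (∫ w, ‖p.eval w‖ ^ 2 ∂ν) * bergman e z := by
  obtain ⟨c, rfl⟩ := exists_expand hν he p hp
  rw [norm_expand hν he c]
  have h1 : ‖(∑ i, c i • e i).eval z‖ ≤ ∑ i, ‖c i‖ * ‖(e i).eval z‖ := by
    rw [eval_finsetSum]
    refine (norm_sum_le _ _).trans (le_of_eq ?_)
    exact Finset.sum_congr rfl fun i _ => by simp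
  calc ‖(∑ i, c i • e i).eval z‖ ^ 2 ≤ (∑ i, ‖c i‖ * ‖(e i).eval z‖) ^ 2 := by gcongr
    _ ≤ (∑ i, ‖c i‖ ^ 2) * ∑ i, ‖(e i).eval z‖ ^ 2 := Finset.sum_mul_sq_le_sq_mul_sq _ _ _
    _ = _ := rfl

/-- extremal polynomial -/
lemma exists_extremal (hν : Good ν) (he : IsOrthoBasis ν k e) (z : ℂ) :
    ∃ p : ℂ[X], p.natDegree ≤ k ∧ p.eval z = (bergman e z : ℂ) ∧
      ∫ w, ‖p.eval w‖ ^ 2 ∂ν = bergman e z := by
  refine ⟨∑ i, conj ((e i).eval z) • e i, ?_, ?_, ?_⟩
  · refine natDegree_sum_le_of_forall_le _ _ fun i _ => ?_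
    exact (natDegree_smul_le _ _).trans (he.1 i)
  · rw [eval_finsetSum]
    unfold bergman
    push_cast
    refine Finset.sum_congr rfl fun i _ => ?_
    rw [eval_smul, smul_eq_mul, mul_comm, Complex.mul_conj, Complex.normSq_eq_norm_sq]
    push_cast
    rfl
  · rw [norm_expand hν he]
    unfold bergman
    exact Finset.sum_congr rfl fun i _ => by simp

lemma bergman_mono {ν' : Measure ℂ} (hν : Good ν) (hν' : Good ν') (hle : ν' ≤ ν)
    (he : IsOrthoBasis ν k e) {e' : Fin (k + 1) → ℂ[X]} (he' : IsOrthoBasis ν' k e') (z : ℂ) :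
    bergman e z ≤ bergman e' z := by
  obtain ⟨p, hp, hpz, hpi⟩ := exists_extremal hν he z
  have h1 := norm_sq_le hν' he' p hp z
  have h2 : ∫ w, ‖p.eval w‖ ^ 2 ∂ν' ≤ ∫ w, ‖p.eval w‖ ^ 2 ∂ν :=
    integral_mono_measure hle (Eventually.of_forall fun w => by positivity)
      (hν.integrable (p.continuous.norm.pow 2))
  rw [hpi] at h2
  have hB := bergman_nonneg e z
  have hB' := bergman_nonneg e' z
  rw [hpz, Complex.norm_real, Real.norm_of_nonneg hB] at h1
  have h3 : bergman e z ^ 2 ≤ bergman e z * bergman e' z :=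
    h1.trans (mul_le_mul_of_nonneg_right h2 hB')
  rcases hB.eq_or_lt with h0 | h0
  · rw [← h0]; exact hB'
  · have : bergman e z * bergman e z ≤ bergman e z * bergman e' z := by rw [← sq]; exact h3
    exact le_of_mul_le_mul_left this h0

lemma integral_bergman (hν : Good ν) (he : IsOrthoBasis ν k e) :
    ∫ z, bergman e z ∂ν = k + 1 := by
  unfold bergman
  rw [integral_finsetSum (f := fun i z => ‖(e i).eval z‖ ^ 2) _
    fun i _ => hν.integrable ((e i).continuous.norm.pow 2)]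
  have : ∀ i, ∫ z, ‖(e i).eval z‖ ^ 2 ∂ν = 1 := by
    intro i
    have h1 := he.2 i i
    rw [if_pos rfl] at h1
    have h2 := ip_self ν (e i)
    unfold ip at h2
    rw [h1] at h2
    exact_mod_cast h2.symm
  simp [this]

/-- existence of orthonormal bases -/
lemma exists_orthoBasis (hν : Good ν) (hpos : ∀ p : ℂ[X], ∫ z, ‖p.eval z‖ ^ 2 ∂ν = 0 → p = 0)
    (k : ℕ) : ∃ e : Fin (k + 1) → ℂ[X], IsOrthoBasis ν k e := by
  let V := degreeLT ℂ (k + 1)
  let core : InnerProductSpace.Core ℂ V :=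
    { inner := fun x y => ip ν y.1 x.1
      conj_inner_symm := fun x y => ip_conj _ _ _
      re_inner_nonneg := fun x => by
        change 0 ≤ (ip ν x.1 x.1).re
        rw [ip_self, Complex.ofReal_re]
        exact integral_nonneg fun z => by positivity
      add_left := fun x y z => ip_add_right hν _ _ _
      smul_left := fun x y r => ip_smul_right _ _ _
      definite := fun x hx => by
        change ip ν x.1 x.1 = 0 at hx
        rw [ip_self] at hx
        exact Subtype.ext (hpos x.1 (by exact_mod_cast hx)) }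
  let : NormedAddCommGroup V := core.toNormedAddCommGroup
  let : InnerProductSpace ℂ V := InnerProductSpace.ofCore core.toCore
  have : FiniteDimensional ℂ V :=
    (degreeLTEquiv ℂ (k + 1)).symm.finiteDimensional
  have hfr : Module.finrank ℂ V = k + 1 := by
    rw [(degreeLTEquiv ℂ (k + 1)).finrank_eq]
    simp
  let b := (stdOrthonormalBasis ℂ V).reindex (finCongr hfr)
  refine ⟨fun i => (b i).1, fun i => ?_, fun i j => ?_⟩
  · have h := (b i).2
    change ((b i).1 : ℂ[X]) ∈ degreeLT ℂ (k + 1) at h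
    rw [mem_degreeLT] at h
    have : (b i).1.degree < ((k + 1 : ℕ) : WithBot ℕ) := h
    change (b i).1.natDegree ≤ k
    by_cases h0 : (b i).1 = 0
    · rw [h0]; simp
    · rw [degree_eq_natDegree h0] at this
      have h2 : (b i).1.natDegree < k + 1 := by exact_mod_cast this
      omega
  · have h := b.orthonormal
    rw [orthonormal_iff_ite] at h
    have h2 := h j i
    change ip ν (b i).1 (b j).1 = _ at h2
    unfold ip at h2
    rw [h2]
    simp [eq_comm]

lemma bergman_atom (hν : Good ν) (he : IsOrthoBasis ν k e) (x : ℂ) :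
    ν.real {x} * bergman e x ≤ 1 := by
  have := hν.1
  obtain ⟨p, hp, hpz, hpi⟩ := exists_extremal hν he x
  have hB := bergman_nonneg e x
  have hint : Integrable (fun w => ‖p.eval w‖ ^ 2) ν := hν.integrable (p.continuous.norm.pow 2)
  have h1 : ∫ w in {x}, ‖p.eval w‖ ^ 2 ∂ν ≤ ∫ w, ‖p.eval w‖ ^ 2 ∂ν :=
    setIntegral_le_integral hint (Eventually.of_forall fun w => by positivity)
  rw [hpi, integral_singleton, hpz, Complex.norm_real, Real.norm_of_nonneg hB,
    smul_eq_mul] at h1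
  rcases hB.eq_or_lt with h0 | h0
  · rw [← h0]; simp
  · have : (ν.real {x} * bergman e x) * bergman e x ≤ 1 * bergman e x := by
      rw [one_mul, mul_assoc, ← sq]; exact h1
    exact le_of_mul_le_mul_right this h0

lemma integral_sigma_le {σ ν' : Measure ℂ} (hσ : Good σ) (hν' : Good ν') (F : Finset ℂ)
    (hF : ∀ᵐ z ∂σ, z ∈ F) (hν : Good (σ + ν')) (he : IsOrthoBasis (σ + ν') k e) :
    ∫ z, bergman e z ∂σ ≤ F.card := by
  have := hσ.1
  have := hν'.1
  have h1 : ∫ z, bergman e z ∂σ = ∫ z in (F : Set ℂ), bergman e z ∂σ := by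
    rw [Measure.restrict_eq_self_of_ae_mem]
    exact hF
  rw [h1, setIntegral_finset (s := F) (hσ.integrable (continuous_bergman e)).integrableOn]
  calc ∑ x ∈ F, σ.real {x} • bergman e x ≤ ∑ x ∈ F, (1 : ℝ) := by
        refine Finset.sum_le_sum fun x _ => ?_
        rw [smul_eq_mul]
        refine le_trans ?_ (bergman_atom hν he x)
        refine mul_le_mul_of_nonneg_right ?_ (bergman_nonneg e x)
        unfold Measure.real
        rw [Measure.add_apply, ENNReal.toReal_add (measure_ne_top _ _) (measure_ne_top _ _)]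
        have : 0 ≤ (ν' {x}).toReal := ENNReal.toReal_nonneg
        linarith
    _ = F.card := by simp

/-- removing finitely many atoms changes `∫ B φ` by a bounded amount -/
lemma compare {σ ν' : Measure ℂ} (hσ : Good σ) (hν' : Good ν') (F : Finset ℂ)
    (hF : ∀ᵐ z ∂σ, z ∈ F) (hν : Good (σ + ν')) (he : IsOrthoBasis (σ + ν') k e)
    {e' : Fin (k + 1) → ℂ[X]} (he' : IsOrthoBasis ν' k e') (φ : ℂ → ℝ) (hφ : Continuous φ)
    (C : ℝ) (hC0 : 0 ≤ C) (hC : ∀ z : ℂ, ‖z‖ = 1 → |φ z| ≤ C) :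
    |∫ z, bergman e z * φ z ∂(σ + ν') - ∫ z, bergman e' z * φ z ∂ν'| ≤ 2 * C * F.card := by
  have := hσ.1
  have := hν'.1
  have hB := continuous_bergman e
  have hB' := continuous_bergman e'
  have hs := integral_sigma_le hσ hν' F hF hν he
  have hmono : ∀ z, bergman e z ≤ bergman e' z := fun z =>
    bergman_mono hν hν' (Measure.le_add_left le_rfl) he he' z
  have e1 : ∫ z, bergman e z ∂(σ + ν') = ∫ z, bergman e z ∂σ + ∫ z, bergman e z ∂ν' :=
    integral_add_measure (hσ.integrable hB) (hν'.integrable hB)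
  have e2 : ∫ z, bergman e z * φ z ∂(σ + ν')
      = ∫ z, bergman e z * φ z ∂σ + ∫ z, bergman e z * φ z ∂ν' :=
    integral_add_measure (hσ.integrable (hB.mul hφ)) (hν'.integrable (hB.mul hφ))
  rw [integral_bergman hν he] at e1
  have e3 := integral_bergman hν' he'
  have a1 : |∫ z, bergman e z * φ z ∂σ| ≤ C * F.card := by
    calc |∫ z, bergman e z * φ z ∂σ| ≤ ∫ z, |bergman e z * φ z| ∂σ := abs_integral_le_integral_abs
      _ ≤ ∫ z, C * bergman e z ∂σ := by
          refine integral_mono_ae (hσ.integrable (hB.mul hφ).abs)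
            (hσ.integrable (continuous_const.mul hB)) ?_
          filter_upwards [hσ.2] with z hz
          rw [abs_mul, abs_of_nonneg (bergman_nonneg e z), mul_comm]
          exact mul_le_mul_of_nonneg_right (hC z hz) (bergman_nonneg e z)
      _ = C * ∫ z, bergman e z ∂σ := integral_const_mul _ _
      _ ≤ C * F.card := mul_le_mul_of_nonneg_left hs hC0
  have a2 : |∫ z, (bergman e' z - bergman e z) * φ z ∂ν'| ≤ C * F.card := by
    calc |∫ z, (bergman e' z - bergman e z) * φ z ∂ν'|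
        ≤ ∫ z, |(bergman e' z - bergman e z) * φ z| ∂ν' := abs_integral_le_integral_abs
      _ ≤ ∫ z, C * (bergman e' z - bergman e z) ∂ν' := by
          refine integral_mono_ae (hν'.integrable ((hB'.sub hB).mul hφ).abs)
            (hν'.integrable (continuous_const.mul (hB'.sub hB))) ?_
          filter_upwards [hν'.2] with z hz
          have h0 : 0 ≤ bergman e' z - bergman e z := sub_nonneg.2 (hmono z)
          rw [abs_mul, abs_of_nonneg h0, mul_comm]
          exact mul_le_mul_of_nonneg_right (hC z hz) h0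
      _ = C * ∫ z, (bergman e' z - bergman e z) ∂ν' := integral_const_mul _ _
      _ = C * (∫ z, bergman e' z ∂ν' - ∫ z, bergman e z ∂ν') := by
          rw [integral_sub (hν'.integrable hB') (hν'.integrable hB)]
      _ ≤ C * F.card := by
          refine mul_le_mul_of_nonneg_left ?_ hC0
          rw [e3]
          linarith
  have e4 : ∫ z, (bergman e' z - bergman e z) * φ z ∂ν'
      = ∫ z, bergman e' z * φ z ∂ν' - ∫ z, bergman e z * φ z ∂ν' := by
    have i1 : Integrable (fun z => bergman e' z * φ z) ν' := hν'.integrable (hB'.mul hφ)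
    have i2 : Integrable (fun z => bergman e z * φ z) ν' := hν'.integrable (hB.mul hφ)
    rw [← integral_sub i1 i2]
    congr 1
    ext z
    ring
  rw [e4] at a2
  rw [e2]
  rw [abs_le] at a1 a2 ⊢
  constructor <;> linarith [a1.1, a1.2, a2.1, a2.2]

/-- rotation invariance of the Bergman function -/
lemma bergman_rot {ν' : Measure ℂ} (hν' : Good ν') {e' : Fin (k + 1) → ℂ[X]}
    (he' : IsOrthoBasis ν' k e') (ζ : ℂ) (hinv : ν'.map (fun z => ζ * z) = ν') (z : ℂ) :
    bergman e' (ζ * z) = bergman e' z := by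
  have hm : Measurable fun z : ℂ => ζ * z := measurable_const_mul ζ
  let f : Fin (k + 1) → ℂ[X] := fun i => (e' i).comp (C ζ * X)
  have hev : ∀ i w, (f i).eval w = (e' i).eval (ζ * w) := fun i w => by simp [f]
  have hf : IsOrthoBasis ν' k f := by
    refine ⟨fun i => ?_, fun i j => ?_⟩
    · refine natDegree_comp_le.trans ?_
      calc (e' i).natDegree * (C ζ * X).natDegree ≤ k * 1 :=
            Nat.mul_le_mul (he'.1 i) ((natDegree_C_mul_le _ _).trans natDegree_X_le)
        _ = k := mul_one k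
    · rw [← he'.2 i j]
      conv_rhs => rw [← hinv]
      rw [integral_map hm.aemeasurable (cont_ip _ _).aestronglyMeasurable]
      simp only [hev]
  have hb : bergman f z = bergman e' (ζ * z) := by
    unfold bergman
    simp only [hev]
  rw [← hb]
  exact le_antisymm (bergman_mono hν' hν' le_rfl hf he' z) (bergman_mono hν' hν' le_rfl he' hf z)

lemma integral_rot {ν' : Measure ℂ} (hν' : Good ν') {e' : Fin (k + 1) → ℂ[X]}
    (he' : IsOrthoBasis ν' k e') (ζ : ℂ) (hinv : ν'.map (fun z => ζ * z) = ν')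
    (φ : ℂ → ℝ) (hφ : Continuous φ) :
    ∫ z, bergman e' z * φ (ζ * z) ∂ν' = ∫ z, bergman e' z * φ z ∂ν' := by
  have hm : Measurable fun z : ℂ => ζ * z := measurable_const_mul ζ
  conv_rhs => rw [← hinv]
  rw [integral_map (f := fun z => bergman e' z * φ z) hm.aemeasurable
    ((continuous_bergman e').mul hφ).aestronglyMeasurable]
  congr 1
  ext z
  rw [bergman_rot hν' he' ζ hinv z]

lemma avg_rot {ν' : Measure ℂ} (hν' : Good ν') {e' : Fin (k + 1) → ℂ[X]}
    (he' : IsOrthoBasis ν' k e') (M : ℕ) (hM : 0 < M) (ζ : ℕ → ℂ)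
    (hinv : ∀ t, ν'.map (fun z => ζ t * z) = ν')
    (φ : ℂ → ℝ) (hφ : Continuous φ) (A ε : ℝ)
    (hA : ∀ z : ℂ, ‖z‖ = 1 → |(M : ℝ)⁻¹ * ∑ t ∈ Finset.range M, φ (ζ t * z) - A| ≤ ε) :
    |∫ z, bergman e' z * φ z ∂ν' - (k + 1) * A| ≤ (k + 1) * ε := by
  have hB' := continuous_bergman e'
  have hMr : (M : ℝ) ≠ 0 := by positivity
  have hc : ∀ t, Continuous fun z => φ (ζ t * z) := fun t =>
    hφ.comp (continuous_const.mul continuous_id)
  have hcs : Continuous fun z => ∑ t ∈ Finset.range M, φ (ζ t * z) :=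
    continuous_finsetSum _ fun t _ => hc t
  have e1 : ∫ z, bergman e' z * ((M : ℝ)⁻¹ * ∑ t ∈ Finset.range M, φ (ζ t * z)) ∂ν'
      = ∫ z, bergman e' z * φ z ∂ν' := by
    have : ∀ z, bergman e' z * ((M : ℝ)⁻¹ * ∑ t ∈ Finset.range M, φ (ζ t * z))
        = (M : ℝ)⁻¹ * ∑ t ∈ Finset.range M, bergman e' z * φ (ζ t * z) := by
      intro z
      rw [← Finset.mul_sum]
      ring
    simp only [this]
    rw [integral_const_mul, integral_finsetSum (f := fun t z => bergman e' z * φ (ζ t * z)) _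
      fun t _ => hν'.integrable (hB'.mul (hc t))]
    simp only [integral_rot hν' he' _ (hinv _) φ hφ]
    rw [Finset.sum_const, Finset.card_range, nsmul_eq_mul, ← mul_assoc, inv_mul_cancel₀ hMr,
      one_mul]
  have e2 : (k + 1 : ℝ) * A = ∫ z, bergman e' z * A ∂ν' := by
    rw [integral_mul_const, integral_bergman hν' he']
  have i1 : Integrable
      (fun z => bergman e' z * ((M : ℝ)⁻¹ * ∑ t ∈ Finset.range M, φ (ζ t * z))) ν' :=
    hν'.integrable (hB'.mul (continuous_const.mul hcs))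
  have i2 : Integrable (fun z => bergman e' z * A) ν' := hν'.integrable (hB'.mul continuous_const)
  rw [← e1, e2, ← integral_sub i1 i2]
  calc |∫ z, (bergman e' z * ((M : ℝ)⁻¹ * ∑ t ∈ Finset.range M, φ (ζ t * z))
        - bergman e' z * A) ∂ν'|
      ≤ ∫ z, |bergman e' z * ((M : ℝ)⁻¹ * ∑ t ∈ Finset.range M, φ (ζ t * z))
        - bergman e' z * A| ∂ν' := abs_integral_le_integral_abs
    _ ≤ ∫ z, bergman e' z * ε ∂ν' := by
        refine integral_mono_ae
          (hν'.integrable ((hB'.mul (continuous_const.mul hcs)).sub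
            (hB'.mul continuous_const)).abs)
          (hν'.integrable (hB'.mul continuous_const)) ?_
        filter_upwards [hν'.2] with z hz
        rw [← mul_sub, abs_mul, abs_of_nonneg (bergman_nonneg e' z)]
        exact mul_le_mul_of_nonneg_left (hA z hz) (bergman_nonneg e' z)
    _ = (k + 1) * ε := by rw [integral_mul_const, integral_bergman hν' he']

/-- Riemann sums on the circle -/
lemma riemann (φ : ℂ → ℝ) (hφ : Continuous φ) (ε : ℝ) (hε : 0 < ε) :
    ∃ M₀ : ℕ, ∀ M : ℕ, M₀ ≤ M → 0 < M → ∀ z : ℂ, ‖z‖ = 1 →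
      |(M : ℝ)⁻¹ * ∑ t ∈ Finset.range M,
          φ (Complex.exp (((2 * Real.pi * t / M : ℝ) : ℂ) * Complex.I) * z)
        - Real.circleAverage φ 0 1| ≤ ε := by
  have huc := (isCompact_sphere (0 : ℂ) 1).uniformContinuousOn_of_continuous hφ.continuousOn
  rw [Metric.uniformContinuousOn_iff] at huc
  obtain ⟨δ, hδ, hu⟩ := huc ε hε
  obtain ⟨M₀, hM₀⟩ := exists_nat_gt (2 * Real.pi / δ)
  refine ⟨M₀, fun M hM hM0 z hz => ?_⟩
  have hMr : (0 : ℝ) < M := by exact_mod_cast hM0
  have hpi := Real.pi_pos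
  have hsmall : 2 * Real.pi / M < δ := by
    rw [div_lt_iff₀ hMr]
    rw [div_lt_iff₀ hδ] at hM₀
    have : (M₀ : ℝ) ≤ M := by exact_mod_cast hM
    nlinarith
  set g : ℝ → ℝ := fun θ => φ (Complex.exp ((θ : ℂ) * Complex.I) * z) with hg
  have hgc : Continuous g := hφ.comp ((Complex.continuous_exp.comp
    (Complex.continuous_ofReal.mul continuous_const)).mul continuous_const)
  have hgi : ∀ a b, IntervalIntegrable g volume a b := fun a b => hgc.intervalIntegrable a b
  set a : ℕ → ℝ := fun t => 2 * Real.pi * t / M with ha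
  have hstep : ∀ t, a (t + 1) - a t = 2 * Real.pi / M := by
    intro t
    simp only [ha]
    push_cast
    field_simp
    ring
  -- the full integral
  have hint : ∫ θ in (0 : ℝ)..2 * Real.pi, g θ = 2 * Real.pi * Real.circleAverage φ 0 1 := by
    have h1 : ∀ θ : ℝ, g θ = φ (circleMap 0 1 (θ + z.arg)) := by
      intro θ
      simp only [hg]
      congr 1
      have hz' : z = Complex.exp (z.arg * Complex.I) := by
        conv_lhs => rw [← Complex.norm_mul_exp_arg_mul_I z]
        rw [hz]; simp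
      conv_lhs => rw [hz']
      rw [← Complex.exp_add]
      simp only [circleMap, zero_add, Complex.ofReal_one, one_mul]
      congr 1
      push_cast
      ring
    simp only [h1]
    rw [intervalIntegral.integral_comp_add_right (fun θ => φ (circleMap 0 1 θ))]
    have hper : Function.Periodic (fun θ => φ (circleMap 0 1 θ)) (2 * Real.pi) := by
      intro θ
      simp only [periodic_circleMap 0 1 θ]
    have h2 := hper.intervalIntegral_add_eq (0 + z.arg) 0
    rw [Real.circleAverage_def, smul_eq_mul, ← mul_assoc, mul_inv_cancel₀ (by positivity),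
      one_mul]
    rw [show (2 * Real.pi + z.arg) = (0 + z.arg) + 2 * Real.pi by ring, h2]
    simp
  have hsum : ∑ t ∈ Finset.range M, ∫ θ in a t..a (t + 1), g θ
      = 2 * Real.pi * Real.circleAverage φ 0 1 := by
    rw [intervalIntegral.sum_integral_adjacent_intervals fun t _ => hgi _ _, ← hint]
    congr 1
    · simp [ha]
    · simp only [ha]
      field_simp
  have hcell : ∀ t, |2 * Real.pi / M * g (a t) - ∫ θ in a t..a (t + 1), g θ|
      ≤ ε * (2 * Real.pi / M) := by
    intro t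
    have h1 : 2 * Real.pi / M * g (a t) = ∫ θ in a t..a (t + 1), g (a t) := by
      rw [intervalIntegral.integral_const, hstep, smul_eq_mul]
    rw [h1, ← intervalIntegral.integral_sub intervalIntegrable_const (hgi _ _)]
    have h2 := intervalIntegral.norm_integral_le_of_norm_le_const (a := a t) (b := a (t + 1))
      (f := fun θ => g (a t) - g θ) (C := ε) (fun θ hθ => ?_)
    · rw [hstep, abs_of_pos (by positivity : 0 < 2 * Real.pi / M)] at h2
      exact h2
    · have hle : a t ≤ a (t + 1) := by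
        have := hstep t
        have h3 : 0 < 2 * Real.pi / M := by positivity
        linarith
      rw [Set.uIoc_of_le hle] at hθ
      have hd : |θ - a t| < δ := by
        rw [abs_of_pos (by linarith [hθ.1])]
        have := hstep t
        linarith [hθ.2]
      have hs : ∀ θ : ℝ, Complex.exp ((θ : ℂ) * Complex.I) * z ∈ Metric.sphere (0 : ℂ) 1 := by
        intro θ
        rw [mem_sphere_zero_iff_norm, norm_mul, Complex.norm_exp_ofReal_mul_I, hz, one_mul]
      have hdist : dist (Complex.exp ((a t : ℂ) * Complex.I) * z)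
          (Complex.exp ((θ : ℂ) * Complex.I) * z) < δ := by
        rw [dist_comm, dist_eq_norm, ← sub_mul, norm_mul, hz, mul_one]
        have h4 : Complex.exp ((θ : ℂ) * Complex.I) - Complex.exp ((a t : ℂ) * Complex.I)
            = Complex.exp ((a t : ℂ) * Complex.I)
              * (Complex.exp (Complex.I * ((θ - a t : ℝ) : ℂ)) - 1) := by
          rw [mul_sub, mul_one, ← Complex.exp_add]
          congr 2
          push_cast
          ring
        rw [h4, norm_mul, Complex.norm_exp_ofReal_mul_I, one_mul]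
        exact lt_of_le_of_lt (Real.norm_exp_I_mul_ofReal_sub_one_le) hd
      exact (hu _ (hs (a t)) _ (hs θ) hdist).le
  have key : (M : ℝ)⁻¹ * ∑ t ∈ Finset.range M, g (a t) - Real.circleAverage φ 0 1
      = (2 * Real.pi)⁻¹ * ∑ t ∈ Finset.range M,
        (2 * Real.pi / M * g (a t) - ∫ θ in a t..a (t + 1), g θ) := by
    rw [Finset.sum_sub_distrib, hsum, ← Finset.mul_sum, mul_sub]
    field_simp
  change |(M : ℝ)⁻¹ * ∑ t ∈ Finset.range M, g (a t) - Real.circleAverage φ 0 1| ≤ ε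
  rw [key, abs_mul, abs_of_pos (by positivity : 0 < (2 * Real.pi)⁻¹)]
  calc (2 * Real.pi)⁻¹ * |∑ t ∈ Finset.range M,
        (2 * Real.pi / M * g (a t) - ∫ θ in a t..a (t + 1), g θ)|
      ≤ (2 * Real.pi)⁻¹ * ∑ t ∈ Finset.range M, ε * (2 * Real.pi / M) := by
        refine mul_le_mul_of_nonneg_left ?_ (by positivity)
        exact (Finset.abs_sum_le_sum_abs _ _).trans (Finset.sum_le_sum fun t _ => hcell t)
    _ = ε := by
        rw [Finset.sum_const, Finset.card_range, nsmul_eq_mul]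
        field_simp

/-! ### The measure -/

/-- the atoms at the `2^i`-th roots of unity, with total mass `exp (-4^i)` -/
def layer (i : ℕ) : Measure ℂ :=
  ENNReal.ofReal (Real.exp (-(4 : ℝ) ^ i) / 2 ^ i) •
    ∑ z ∈ nthRootsFinset (2 ^ i) (1 : ℂ), Measure.dirac z

/-- the sum of the layers `J, J + 1, …` -/
def nuFrom (J : ℕ) : Measure ℂ := Measure.sum fun i => layer (i + J)

lemma mem_roots {i : ℕ} {z : ℂ} : z ∈ nthRootsFinset (2 ^ i) (1 : ℂ) ↔ z ^ 2 ^ i = 1 :=
  mem_nthRootsFinset (by positivity) _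

lemma card_roots' (i : ℕ) : (nthRootsFinset (2 ^ i) (1 : ℂ)).card = 2 ^ i :=
  (Complex.isPrimitiveRoot_exp (2 ^ i) (by positivity)).card_nthRootsFinset

lemma layer_apply (i : ℕ) {s : Set ℂ} (hs : MeasurableSet s) :
    layer i s = ENNReal.ofReal (Real.exp (-(4 : ℝ) ^ i) / 2 ^ i) *
      ∑ z ∈ nthRootsFinset (2 ^ i) (1 : ℂ), s.indicator 1 z := by
  unfold layer
  rw [Measure.smul_apply, Measure.coe_finsetSum, Finset.sum_apply, smul_eq_mul]
  congr 1
  exact Finset.sum_congr rfl fun z _ => Measure.dirac_apply' z hs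

lemma layer_univ (i : ℕ) : layer i Set.univ = ENNReal.ofReal (Real.exp (-(4 : ℝ) ^ i)) := by
  rw [layer_apply i MeasurableSet.univ]
  simp only [Set.indicator_univ, Pi.one_apply, Finset.sum_const, card_roots', nsmul_eq_mul,
    mul_one]
  rw [show (((2 ^ i : ℕ) : ℝ≥0∞)) = ENNReal.ofReal (2 ^ i) by
    rw [ENNReal.ofReal_pow (by norm_num)]; simp]
  rw [← ENNReal.ofReal_mul (by positivity)]
  congr 1
  field_simp

lemma layer_ae {i : ℕ} {P : ℂ → Prop} (hP : MeasurableSet {z | P z})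
    (h : ∀ z ∈ nthRootsFinset (2 ^ i) (1 : ℂ), P z) : ∀ᵐ z ∂layer i, P z := by
  rw [ae_iff]
  have : {z | ¬ P z} = {z | P z}ᶜ := rfl
  rw [this, layer_apply i hP.compl, Finset.sum_eq_zero, mul_zero]
  intro z hz
  simp [h z hz]

lemma norm_of_mem {i : ℕ} {z : ℂ} (h : z ∈ nthRootsFinset (2 ^ i) (1 : ℂ)) : ‖z‖ = 1 := by
  rw [mem_roots] at h
  exact Complex.norm_eq_one_of_pow_eq_one h (by positivity)

lemma layer_ae_norm (i : ℕ) : ∀ᵐ z ∂layer i, ‖z‖ = 1 :=
  layer_ae (measurableSet_eq_fun measurable_norm measurable_const) fun _ => norm_of_mem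

lemma nuFrom_univ_le (J : ℕ) :
    nuFrom J Set.univ ≤ ENNReal.ofReal (2 * Real.exp (-(4 : ℝ) ^ J)) := by
  unfold nuFrom
  rw [Measure.sum_apply _ MeasurableSet.univ]
  have h1 : ∀ i, layer (i + J) Set.univ
      ≤ ENNReal.ofReal (2 * Real.exp (-(4 : ℝ) ^ J) / 2 / 2 ^ i) := by
    intro i
    rw [layer_univ]
    refine ENNReal.ofReal_le_ofReal ?_
    have h2 : (4 : ℝ) ^ J + i ≤ 4 ^ (i + J) := by
      have h3 : (i : ℝ) + 1 ≤ 4 ^ i := by
        have : i + 1 ≤ 4 ^ i := Nat.succ_le_of_lt (Nat.lt_pow_self (by norm_num))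
        exact_mod_cast this
      have h4 : (1 : ℝ) ≤ 4 ^ J := one_le_pow₀ (by norm_num)
      rw [pow_add]
      have h5 : (0 : ℝ) ≤ i := Nat.cast_nonneg i
      nlinarith
    have h3 : Real.exp (-(4 : ℝ) ^ (i + J)) ≤ Real.exp (-(4 : ℝ) ^ J) * Real.exp (-(i : ℝ)) := by
      rw [← Real.exp_add]
      exact Real.exp_le_exp.2 (by linarith)
    have h4 : Real.exp (-(i : ℝ)) ≤ 1 / 2 ^ i := by
      rw [Real.exp_neg, one_div]
      refine inv_anti₀ (by positivity) ?_
      have : (2 : ℝ) ≤ Real.exp 1 := by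
        have := Real.add_one_le_exp (1 : ℝ)
        linarith
      calc (2 : ℝ) ^ i ≤ Real.exp 1 ^ i := by gcongr
        _ = Real.exp i := by rw [← Real.exp_nat_mul, mul_one]
    calc Real.exp (-(4 : ℝ) ^ (i + J)) ≤ Real.exp (-(4 : ℝ) ^ J) * Real.exp (-(i : ℝ)) := h3
      _ ≤ Real.exp (-(4 : ℝ) ^ J) * (1 / 2 ^ i) := by gcongr
      _ = 2 * Real.exp (-(4 : ℝ) ^ J) / 2 / 2 ^ i := by ring
  refine (ENNReal.tsum_le_tsum h1).trans ?_
  rw [← ENNReal.ofReal_tsum_of_nonneg (fun i => by positivity) (summable_geometric_two' _),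
    tsum_geometric_two']

lemma nuFrom_good (J : ℕ) : Good (nuFrom J) := by
  refine ⟨⟨lt_of_le_of_lt (nuFrom_univ_le J) ENNReal.ofReal_lt_top⟩, ?_⟩
  unfold nuFrom
  rw [Measure.ae_sum_iff]
  exact fun i => layer_ae_norm _

lemma nuFrom_succ (J : ℕ) : nuFrom J = layer J + nuFrom (J + 1) := by
  unfold nuFrom
  ext s hs
  rw [Measure.add_apply, Measure.sum_apply _ hs, Measure.sum_apply _ hs,
    tsum_eq_zero_add' ENNReal.summable, zero_add]
  congr 2
  ext i
  rw [show i + 1 + J = i + (J + 1) by ring]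

/-- the first `J` layers -/
def head (J : ℕ) : Measure ℂ := ∑ i ∈ Finset.range J, layer i

lemma head_add (J : ℕ) : nuFrom 0 = head J + nuFrom J := by
  induction J with
  | zero => simp [head]
  | succ J ih =>
    rw [ih, nuFrom_succ J]
    unfold head
    rw [Finset.sum_range_succ, add_assoc]

lemma head_ae {J : ℕ} {P : ℂ → Prop} (hP : MeasurableSet {z | P z})
    (h : ∀ i < J, ∀ z ∈ nthRootsFinset (2 ^ i) (1 : ℂ), P z) : ∀ᵐ z ∂head J, P z := by
  rw [ae_iff]
  unfold head
  rw [Measure.coe_finsetSum, Finset.sum_apply]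
  refine Finset.sum_eq_zero fun i hi => ?_
  exact ae_iff.1 (layer_ae hP (h i (Finset.mem_range.1 hi)))

lemma head_good (J : ℕ) : Good (head J) := by
  have h0 := (nuFrom_good 0).1
  refine ⟨?_, ?_⟩
  · have : head J ≤ nuFrom 0 := by
      rw [head_add J]
      exact Measure.le_add_right le_rfl
    exact isFiniteMeasure_of_le _ this
  · exact head_ae (measurableSet_eq_fun measurable_norm measurable_const)
      fun i _ z hz => norm_of_mem hz

lemma head_ae_mem (J : ℕ) : ∀ᵐ z ∂head J, z ∈ nthRootsFinset (2 ^ J) (1 : ℂ) := by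
  refine head_ae ?_ fun i hi z hz => ?_
  · exact (nthRootsFinset (2 ^ J) (1 : ℂ)).measurableSet
  · rw [mem_roots] at hz ⊢
    rw [show 2 ^ J = 2 ^ i * 2 ^ (J - i) by rw [← pow_add]; congr 1; omega, pow_mul, hz, one_pow]

lemma layer_rot (i : ℕ) (ζ : ℂ) (hζ : ζ ^ 2 ^ i = 1) {s : Set ℂ} (hs : MeasurableSet s) :
    layer i ((fun z => ζ * z) ⁻¹' s) = layer i s := by
  have hm : Measurable fun z : ℂ => ζ * z := measurable_const_mul ζ
  have hne : ζ ≠ 0 := by
    rintro rfl
    rw [zero_pow (by positivity)] at hζ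
    exact zero_ne_one hζ
  rw [layer_apply i (hm hs), layer_apply i hs]
  congr 1
  refine Finset.sum_nbij' (fun z => ζ * z) (fun z => ζ⁻¹ * z) ?_ ?_ ?_ ?_ ?_
  · intro z hz
    rw [mem_roots] at hz ⊢
    rw [mul_pow, hζ, hz, one_mul]
  · intro z hz
    rw [mem_roots] at hz ⊢
    rw [mul_pow, inv_pow, hζ, hz, inv_one, one_mul]
  · intro z _
    rw [← mul_assoc, inv_mul_cancel₀ hne, one_mul]
  · intro z _
    rw [← mul_assoc, mul_inv_cancel₀ hne, one_mul]
  · intro z _
    rfl

lemma nuFrom_rot (J : ℕ) (ζ : ℂ) (hζ : ζ ^ 2 ^ J = 1) :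
    (nuFrom J).map (fun z => ζ * z) = nuFrom J := by
  have hm : Measurable fun z : ℂ => ζ * z := measurable_const_mul ζ
  ext s hs
  rw [Measure.map_apply hm hs]
  unfold nuFrom
  rw [Measure.sum_apply _ (hm hs), Measure.sum_apply _ hs]
  congr 1
  ext i
  refine layer_rot _ ζ ?_ hs
  rw [pow_add, mul_comm, pow_mul, hζ, one_pow]

lemma nuFrom_pos (J : ℕ) (p : ℂ[X]) (h : ∫ z, ‖p.eval z‖ ^ 2 ∂nuFrom J = 0) : p = 0 := by
  have hint : Integrable (fun z => ‖p.eval z‖ ^ 2) (nuFrom J) :=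
    (nuFrom_good J).integrable (p.continuous.norm.pow 2)
  rw [integral_eq_zero_iff_of_nonneg (fun z => by positivity) hint] at h
  have h2 : ∀ i, ∀ᵐ z ∂layer (i + J), ‖p.eval z‖ ^ 2 = 0 := by
    have h3 : ∀ᵐ z ∂nuFrom J, ‖p.eval z‖ ^ 2 = 0 := h
    unfold nuFrom at h3
    rwa [Measure.ae_sum_iff] at h3
  have h4 : ∀ i, ∀ z ∈ nthRootsFinset (2 ^ (i + J)) (1 : ℂ), p.eval z = 0 := by
    intro i z hz
    by_contra hne
    have h5 := h2 i
    rw [ae_iff] at h5
    have h6 : layer (i + J) {z} = 0 := by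
      refine measure_mono_null ?_ h5
      rintro w rfl
      simpa using hne
    rw [layer_apply _ (measurableSet_singleton z)] at h6
    rw [mul_eq_zero] at h6
    rcases h6 with h6 | h6
    · rw [ENNReal.ofReal_eq_zero] at h6
      have : 0 < Real.exp (-(4 : ℝ) ^ (i + J)) / 2 ^ (i + J) := by positivity
      linarith
    · rw [Finset.sum_eq_zero_iff] at h6
      have := h6 z hz
      simp at this
  refine Polynomial.eq_zero_of_natDegree_lt_card_of_eval_eq_zero' p
    (nthRootsFinset (2 ^ (p.natDegree + J)) (1 : ℂ)) (h4 p.natDegree) ?_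
  rw [card_roots']
  calc p.natDegree < 2 ^ p.natDegree := Nat.lt_two_pow_self
    _ ≤ 2 ^ (p.natDegree + J) := Nat.pow_le_pow_right (by norm_num) (by omega)

/-- **(S)** -/
lemma weakStar (e : (k : ℕ) → Fin (k + 1) → ℂ[X]) (he : ∀ k, IsOrthoBasis (nuFrom 0) k (e k))
    (φ : ℂ → ℝ) (hφ : Continuous φ) :
    Tendsto (fun k : ℕ => (1 / ((k : ℝ) + 1)) * ∫ z, bergman (e k) z * φ z ∂nuFrom 0) atTop
      (𝓝 (Real.circleAverage φ 0 1)) := by
  rw [Metric.tendsto_atTop]
  intro ε hε
  obtain ⟨M₀, hM₀⟩ := riemann φ hφ (ε / 3) (by positivity)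
  obtain ⟨C, hC⟩ := (isCompact_sphere (0 : ℂ) 1).exists_bound_of_continuousOn hφ.continuousOn
  have hC' : ∀ z : ℂ, ‖z‖ = 1 → |φ z| ≤ max C 0 := fun z hz =>
    (hC z (by simp [hz])).trans (le_max_left _ _)
  set C' := max C 0 with hC'def
  have hC0 : 0 ≤ C' := le_max_right _ _
  let J := M₀
  have hJ : M₀ ≤ 2 ^ J := Nat.lt_two_pow_self.le
  let F := nthRootsFinset (2 ^ J) (1 : ℂ)
  obtain ⟨N, hN⟩ := exists_nat_gt (2 * C' * F.card / (ε / 3))
  refine ⟨N, fun k hk => ?_⟩
  have hk0 : (0 : ℝ) < (k : ℝ) + 1 := by positivity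
  obtain ⟨e', he'⟩ := exists_orthoBasis (nuFrom_good J) (nuFrom_pos J) k
  have hsplit := head_add J
  have hg : Good (head J + nuFrom J) := by rw [← hsplit]; exact nuFrom_good 0
  have hek : IsOrthoBasis (head J + nuFrom J) k (e k) := by rw [← hsplit]; exact he k
  have h1 := compare (head_good J) (nuFrom_good J) F (head_ae_mem J) hg hek he' φ hφ C' hC0 hC'
  rw [← hsplit] at h1
  have hζ : ∀ t : ℕ, (Complex.exp (((2 * Real.pi * t / ((2 ^ J : ℕ) : ℝ) : ℝ) : ℂ)
      * Complex.I)) ^ 2 ^ J = 1 := by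
    intro t
    rw [← Complex.exp_nat_mul]
    have : ((2 ^ J : ℕ) : ℂ) * (((2 * Real.pi * t / ((2 ^ J : ℕ) : ℝ) : ℝ) : ℂ) * Complex.I)
        = t * (2 * Real.pi * Complex.I) := by
      have h2 : ((2 ^ J : ℕ) : ℂ) ≠ 0 := Nat.cast_ne_zero.2 (by positivity)
      push_cast at h2 ⊢
      field_simp
    rw [this, Complex.exp_nat_mul_two_pi_mul_I]
  have h2 := avg_rot (nuFrom_good J) he' (2 ^ J) (by positivity)
    (fun t => Complex.exp (((2 * Real.pi * t / ((2 ^ J : ℕ) : ℝ) : ℝ) : ℂ) * Complex.I))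
    (fun t => nuFrom_rot J _ (hζ t)) φ hφ (Real.circleAverage φ 0 1) (ε / 3)
    (fun z hz => hM₀ (2 ^ J) hJ (by positivity) z hz)
  have h3 : 2 * C' * F.card < (k + 1) * (ε / 3) := by
    rw [div_lt_iff₀ (by positivity)] at hN
    have : (N : ℝ) ≤ k := by exact_mod_cast hk
    nlinarith
  rw [Real.dist_eq]
  have h4 : (1 / ((k : ℝ) + 1)) * ∫ z, bergman (e k) z * φ z ∂nuFrom 0
      - Real.circleAverage φ 0 1
      = (1 / ((k : ℝ) + 1)) * (∫ z, bergman (e k) z * φ z ∂nuFrom 0
        - (k + 1) * Real.circleAverage φ 0 1) := by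
    field_simp
  rw [h4, abs_mul, abs_of_pos (by positivity : 0 < 1 / ((k : ℝ) + 1)), one_div,
    inv_mul_lt_iff₀ hk0]
  rw [abs_le] at h1 h2
  rw [abs_lt]
  constructor <;> nlinarith [h1.1, h1.2, h2.1, h2.2]

lemma mass_le (J : ℕ) : (nuFrom J).real Set.univ ≤ 2 * Real.exp (-(4 : ℝ) ^ J) := by
  unfold Measure.real
  exact ENNReal.toReal_le_of_le_ofReal (by positivity) (nuFrom_univ_le J)

lemma bergman_zero_ge (j : ℕ) (e : Fin (2 ^ j + 1) → ℂ[X])
    (he : IsOrthoBasis (nuFrom 0) (2 ^ j) e) :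
    Real.exp ((4 : ℝ) ^ (j + 1)) / 8 ≤ bergman e 0 := by
  let p : ℂ[X] := X ^ 2 ^ j - 1
  have hp : p.natDegree ≤ 2 ^ j := by
    refine (natDegree_sub_le _ _).trans ?_
    simp
  have hpe : ∀ z, p.eval z = z ^ 2 ^ j - 1 := fun z => by simp [p]
  have hpc : Continuous fun z => ‖p.eval z‖ ^ 2 := p.continuous.norm.pow 2
  have h1 := norm_sq_le (nuFrom_good 0) he p hp 0
  have h2 : ∫ w, ‖p.eval w‖ ^ 2 ∂nuFrom 0 ≤ 8 * Real.exp (-(4 : ℝ) ^ (j + 1)) := by
    rw [head_add (j + 1), integral_add_measure ((head_good (j + 1)).integrable hpc)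
      ((nuFrom_good (j + 1)).integrable hpc)]
    have h3 : ∫ w, ‖p.eval w‖ ^ 2 ∂head (j + 1) = 0 := by
      refine integral_eq_zero_of_ae ?_
      have : ∀ᵐ w ∂head (j + 1), ‖p.eval w‖ ^ 2 = 0 := by
        refine head_ae (measurableSet_eq_fun hpc.measurable measurable_const) fun i hi z hz => ?_
        rw [mem_roots] at hz
        rw [hpe, show 2 ^ j = 2 ^ i * 2 ^ (j - i) by rw [← pow_add]; congr 1; omega, pow_mul, hz,
          one_pow, sub_self, norm_zero, zero_pow two_ne_zero]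
      exact this
    rw [h3, zero_add]
    have := (nuFrom_good (j + 1)).1
    calc ∫ w, ‖p.eval w‖ ^ 2 ∂nuFrom (j + 1) ≤ ∫ _w, (4 : ℝ) ∂nuFrom (j + 1) := by
          refine integral_mono_ae ((nuFrom_good (j + 1)).integrable hpc)
            (integrable_const _) ?_
          filter_upwards [(nuFrom_good (j + 1)).2] with z hz
          have : ‖p.eval z‖ ≤ 2 := by
            rw [hpe]
            calc ‖z ^ 2 ^ j - 1‖ ≤ ‖z ^ 2 ^ j‖ + ‖(1 : ℂ)‖ := norm_sub_le _ _
              _ = 2 := by rw [norm_pow, hz, one_pow, norm_one]; norm_num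
          have h0 := norm_nonneg (p.eval z)
          nlinarith
      _ = (nuFrom (j + 1)).real Set.univ * 4 := by rw [integral_const, smul_eq_mul]
      _ ≤ 8 * Real.exp (-(4 : ℝ) ^ (j + 1)) := by
          have := mass_le (j + 1)
          linarith
  have h3 : ‖p.eval 0‖ ^ 2 = 1 := by
    rw [hpe, zero_pow (by positivity)]
    simp
  rw [h3] at h1
  have hB := bergman_nonneg e 0
  have h4 : 1 ≤ 8 * Real.exp (-(4 : ℝ) ^ (j + 1)) * bergman e 0 :=
    h1.trans (mul_le_mul_of_nonneg_right h2 hB)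
  rw [Real.exp_neg] at h4
  rw [div_le_iff₀ (by norm_num)]
  have h5 := Real.exp_pos ((4 : ℝ) ^ (j + 1))
  calc Real.exp ((4 : ℝ) ^ (j + 1)) = Real.exp ((4 : ℝ) ^ (j + 1)) * 1 := (mul_one _).symm
    _ ≤ Real.exp ((4 : ℝ) ^ (j + 1)) * (8 * (Real.exp ((4 : ℝ) ^ (j + 1)))⁻¹ * bergman e 0) := by
        gcongr
    _ = bergman e 0 * 8 := by field_simp

lemma log_diverges (e : (k : ℕ) → Fin (k + 1) → ℂ[X])
    (he : ∀ k, IsOrthoBasis (nuFrom 0) k (e k)) :
    Tendsto (fun j : ℕ => (1 / (2 * ((2 ^ j : ℕ) : ℝ))) * Real.log (bergman (e (2 ^ j)) 0))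
      atTop atTop := by
  have hlow : ∀ j : ℕ, (2 : ℝ) ^ j - 4
      ≤ (1 / (2 * ((2 ^ j : ℕ) : ℝ))) * Real.log (bergman (e (2 ^ j)) 0) := by
    intro j
    have h1 := bergman_zero_ge j (e (2 ^ j)) (he _)
    have h2 : (4 : ℝ) ^ (j + 1) - Real.log 8 ≤ Real.log (bergman (e (2 ^ j)) 0) := by
      rw [← Real.log_exp ((4 : ℝ) ^ (j + 1)), ← Real.log_div (Real.exp_ne_zero _) (by norm_num)]
      exact Real.log_le_log (by positivity) h1
    have h3 : Real.log 8 ≤ 8 := (Real.log_le_sub_one_of_pos (by norm_num)).trans (by norm_num)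
    push_cast
    have h4 : (0 : ℝ) < 2 ^ j := by positivity
    have h4' : (1 : ℝ) ≤ 2 ^ j := one_le_pow₀ (by norm_num)
    have h5 : (4 : ℝ) ^ (j + 1) = 4 * (2 ^ j * 2 ^ j) := by
      rw [pow_succ, ← mul_pow]; norm_num; ring
    rw [one_div, ← div_eq_inv_mul, le_div_iff₀ (by positivity)]
    rw [h5] at h2
    nlinarith
  refine tendsto_atTop_mono hlow ?_
  exact tendsto_atTop_add_const_right _ _ (tendsto_pow_atTop_atTop_of_one_lt (by norm_num))

/-- **Disproof of Q1** (in dimension one, for the closed unit disc or the unit circle `K`, for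
which `V_K = log⁺ |z|` and `μ_K` is normalised arc length): there is a finite measure `ν` carried
by the unit circle whose `L²`-norm is a norm on polynomials, such that the measures
`(k+1)⁻¹ B_k ν` converge weak-* to normalised arc length, but `(2k)⁻¹ log B_k` does not converge
locally uniformly to `log⁺ |z|`; it even tends to `+∞` at the origin along `k = 2^j`. -/
theorem result :
    ∃ ν : Measure ℂ, IsFiniteMeasure ν ∧ ν {z | ‖z‖ ≠ 1} = 0 ∧
      (∀ p : ℂ[X], ∫ z, ‖p.eval z‖ ^ 2 ∂ν = 0 → p = 0) ∧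
      (∀ k : ℕ, ∃ e : Fin (k + 1) → ℂ[X], IsOrthoBasis ν k e) ∧
      ∀ e : (k : ℕ) → Fin (k + 1) → ℂ[X], (∀ k, IsOrthoBasis ν k (e k)) →
        (∀ φ : ℂ → ℝ, Continuous φ →
          Tendsto (fun k : ℕ => (1 / ((k : ℝ) + 1)) * ∫ z, bergman (e k) z * φ z ∂ν) atTop
            (𝓝 (Real.circleAverage φ 0 1))) ∧
        ¬ TendstoLocallyUniformly
          (fun (k : ℕ) (z : ℂ) => (1 / (2 * (k : ℝ))) * Real.log (bergman (e k) z))
          (fun z => Real.posLog ‖z‖) atTop ∧
        Tendsto (fun j : ℕ => (1 / (2 * ((2 ^ j : ℕ) : ℝ))) * Real.log (bergman (e (2 ^ j)) 0))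
          atTop atTop := by
  refine ⟨nuFrom 0, (nuFrom_good 0).1, ae_iff.1 (nuFrom_good 0).2, nuFrom_pos 0,
    exists_orthoBasis (nuFrom_good 0) (nuFrom_pos 0), fun e he =>
    ⟨weakStar e he, fun h => ?_, log_diverges e he⟩⟩
  have h1 := (tendstoLocallyUniformlyOn_univ.2 h).tendsto_at (Set.mem_univ (0 : ℂ))
  have h2 : Tendsto (fun j : ℕ => 2 ^ j) atTop atTop :=
    tendsto_pow_atTop_atTop_of_one_lt (by norm_num)
  exact not_tendsto_nhds_of_tendsto_atTop (log_diverges e he) _ (h1.comp h2)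

end Pool.Agent.Results.MP_58ffb3_an.BergmanMeasureNotRoot
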